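import Pool.Agent.L7h32.PI.Stm

/-!
# Project PI: uniform strict differentiability of the retraction (`S_NU`)
-/

set_option autoImplicit false

open Set Filter Topology Metric
open scoped ContDiff

namespace Pool.Agent.L7h69.PI

open Pool.Agent.L7h32.AA Pool.Agent.L7h32.PI

variable {E : Type} [NormedAddCommGroup E] [NormedSpace ℝ E] [FiniteDimensional ℝ E]
  {K U : Set E} {N : E → E}

omit [FiniteDimensional ℝ E] in
theorem cdAt (hR : Ret K U N) {p : E} (hp : p ∈ K) : ContDiffAt ℝ ∞ N p :=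
  hR.smooth.contDiffAt (hR.opn.mem_nhds (hR.sub hp))

omit [FiniteDimensional ℝ E] in
theorem strictN (hR : Ret K U N) {p : E} (hp : p ∈ K) : HasStrictFDerivAt N (fderiv ℝ N p) p :=
  (cdAt hR hp).hasStrictFDerivAt (by simp)

omit [FiniteDimensional ℝ E] in
theorem idem (hR : Ret K U N) {p : E} (hp : p ∈ K) (v : E) :
    fderiv ℝ N p (fderiv ℝ N p v) = fderiv ℝ N p v := by
  have h1 : HasFDerivAt N (fderiv ℝ N p) p := (strictN hR hp).hasFDerivAt
  have h1' : HasFDerivAt N (fderiv ℝ N p) (N p) := by rw [hR.fix p hp]; exact h1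
  have h2 : HasFDerivAt (fun z => N (N z)) ((fderiv ℝ N p).comp (fderiv ℝ N p)) p := h1'.comp p h1
  have h3 : (fun z => N (N z)) =ᶠ[𝓝 p] N := by
    filter_upwards [hR.opn.mem_nhds (hR.sub hp)] with z hz
    exact hR.fix _ (hR.maps z hz)
  have h4 := (h1.congr_of_eventuallyEq h3).unique h2
  exact (congrArg (fun L : E →L[ℝ] E => L v) h4).symm

theorem s_NU : S_NU := by
  intro E _ _ _ K U N hR
  refine ⟨fun κ hκ => ?_, fun p hp v => idem hR hp v⟩
  have key : ∀ p : K, ∃ r : ℝ, 0 < r ∧ (∀ z z' : E, z ∈ ball p.1 r → z' ∈ ball p.1 r →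
      z ∈ U ∧ ‖(N z - N z') - fderiv ℝ N p.1 (z - z')‖ ≤ κ / 2 * ‖z - z'‖) ∧
      ∀ q ∈ ball p.1 r, ‖fderiv ℝ N p.1 - fderiv ℝ N q‖ ≤ κ / 2 := by
    rintro ⟨p, hp⟩
    have h1 := (strictN hR hp).isLittleO.def (half_pos hκ)
    have h2 : ∀ᶠ z in 𝓝 p, z ∈ U := hR.opn.mem_nhds (hR.sub hp)
    have h3 : ContinuousAt (fderiv ℝ N) p :=
      ((hR.smooth.continuousOn_fderiv_of_isOpen hR.opn (by simp)).continuousAt
        (hR.opn.mem_nhds (hR.sub hp)))
    have h4 : ∀ᶠ q in 𝓝 p, ‖fderiv ℝ N p - fderiv ℝ N q‖ < κ / 2 := by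
      have := h3.eventually (Metric.ball_mem_nhds _ (half_pos hκ))
      filter_upwards [this] with q hq
      rwa [dist_comm, dist_eq_norm] at hq
    obtain ⟨r1, hr1, h5⟩ := Metric.eventually_nhds_iff_ball.1 h1
    obtain ⟨r2, hr2, h6⟩ := Metric.eventually_nhds_iff_ball.1 (h2.and h4)
    refine ⟨min r1 r2, lt_min hr1 hr2, fun z z' hz hz' => ?_, fun q hq => ?_⟩
    · have k1 : z ∈ ball p r2 := ball_subset_ball (min_le_right _ _) hz
      refine ⟨(h6 z k1).1, ?_⟩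
      have k2 : (z, z') ∈ ball (p, p) r1 := by
        rw [← ball_prod_same]
        exact ⟨ball_subset_ball (min_le_left _ _) hz, ball_subset_ball (min_le_left _ _) hz'⟩
      exact h5 _ k2
    · exact (h6 q (ball_subset_ball (min_le_right _ _) hq)).2.le
  choose r hr h1 h2 using key
  obtain ⟨w, hw, h3⟩ := lebesgue_number_lemma_of_metric (s := K) (c := fun p : K => ball p.1 (r p))
    hR.cpt (fun p => isOpen_ball) (fun p hp => mem_iUnion.2 ⟨⟨p, hp⟩, mem_ball_self (hr _)⟩)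
  refine ⟨w, hw, fun q hq z z' hz hz' => ?_⟩
  obtain ⟨p, hp⟩ := h3 q hq
  have kz : z ∈ ball p.1 (r p) := hp (by rwa [mem_ball, dist_eq_norm])
  have kz' : z' ∈ ball p.1 (r p) := hp (by rwa [mem_ball, dist_eq_norm])
  have kq : q ∈ ball p.1 (r p) := hp (mem_ball_self hw)
  refine ⟨(h1 p z z' kz kz').1, (h1 p z' z kz' kz).1, ?_⟩
  have e1 := (h1 p z z' kz kz').2
  have e2 := h2 p q kq
  have e3 : (N z - N z') - fderiv ℝ N q (z - z') =
      ((N z - N z') - fderiv ℝ N p.1 (z - z')) + (fderiv ℝ N p.1 - fderiv ℝ N q) (z - z') := by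
    rw [sub_apply]
    abel
  rw [e3]
  have e4 := (fderiv ℝ N p.1 - fderiv ℝ N q).le_opNorm (z - z')
  have e5 := mul_le_mul_of_nonneg_right e2 (norm_nonneg (z - z'))
  calc _ ≤ _ + _ := norm_add_le _ _
    _ ≤ κ / 2 * ‖z - z'‖ + κ / 2 * ‖z - z'‖ := add_le_add e1 (e4.trans e5)
    _ = κ * ‖z - z'‖ := by ring

end Pool.Agent.L7h69.PI
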