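import Pool.Agent.L7h32.PI.Stm

/-!
# Project PI: composition with a smooth map is continuous in the Lipschitz norm (`S_COMP`)
-/

set_option autoImplicit false

open Set Filter Topology Metric
open scoped ContDiff

namespace Pool.Agent.L7h69.PI

open Pool.Agent.L7h32.AA Pool.Agent.L7h32.PI

/-- uniform strict differentiability on a compact set -/
theorem unif_strict {F G : Type} [NormedAddCommGroup F] [NormedSpace ℝ F]
    [NormedAddCommGroup G] [NormedSpace ℝ G] {C W : Set F} {Ψ : F → G} (hC : IsCompact C)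
    (hW : IsOpen W) (hCW : C ⊆ W) (hΨ : ContDiffOn ℝ ∞ Ψ W) {κ : ℝ} (hκ : 0 < κ) :
    ∃ w : ℝ, 0 < w ∧ ∀ p ∈ C, ∀ z z' : F, ‖z - p‖ < w → ‖z' - p‖ < w →
      z ∈ W ∧ z' ∈ W ∧ ‖(Ψ z - Ψ z') - fderiv ℝ Ψ p (z - z')‖ ≤ κ * ‖z - z'‖ := by
  have key : ∀ p : C, ∃ r : ℝ, 0 < r ∧ (∀ z z' : F, z ∈ ball p.1 r → z' ∈ ball p.1 r →
      z ∈ W ∧ ‖(Ψ z - Ψ z') - fderiv ℝ Ψ p.1 (z - z')‖ ≤ κ / 2 * ‖z - z'‖) ∧
      ∀ q ∈ ball p.1 r, ‖fderiv ℝ Ψ p.1 - fderiv ℝ Ψ q‖ ≤ κ / 2 := by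
    rintro ⟨p, hp⟩
    have hcd : ContDiffAt ℝ ∞ Ψ p := hΨ.contDiffAt (hW.mem_nhds (hCW hp))
    have hst : HasStrictFDerivAt Ψ (fderiv ℝ Ψ p) p := hcd.hasStrictFDerivAt (by simp)
    have h1 := hst.isLittleO.def (half_pos hκ)
    have h2 : ∀ᶠ z in 𝓝 p, z ∈ W := hW.mem_nhds (hCW hp)
    have h3 : ContinuousAt (fderiv ℝ Ψ) p :=
      ((hΨ.continuousOn_fderiv_of_isOpen hW (by simp)).continuousAt (hW.mem_nhds (hCW hp)))
    have h4 : ∀ᶠ q in 𝓝 p, ‖fderiv ℝ Ψ p - fderiv ℝ Ψ q‖ < κ / 2 := by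
      have := h3.eventually (Metric.ball_mem_nhds _ (half_pos hκ))
      filter_upwards [this] with q hq
      rwa [dist_comm, dist_eq_norm] at hq
    obtain ⟨r1, hr1, h5⟩ := Metric.eventually_nhds_iff_ball.1 h1
    obtain ⟨r2, hr2, h6⟩ := Metric.eventually_nhds_iff_ball.1 (h2.and h4)
    refine ⟨min r1 r2, lt_min hr1 hr2, fun z z' hz hz' => ?_, fun q hq => ?_⟩
    · have k1 : z ∈ ball p r2 := ball_subset_ball (min_le_right _ _) hz
      refine ⟨(h6 z k1).1, ?_⟩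
      have k2 : (z, z') ∈ ball (p, p) r1 := by
        rw [← ball_prod_same]
        exact ⟨ball_subset_ball (min_le_left _ _) hz, ball_subset_ball (min_le_left _ _) hz'⟩
      exact h5 _ k2
    · exact (h6 q (ball_subset_ball (min_le_right _ _) hq)).2.le
  choose r hr h1 h2 using key
  obtain ⟨w, hw, h3⟩ := lebesgue_number_lemma_of_metric (s := C) (c := fun p : C => ball p.1 (r p))
    hC (fun p => isOpen_ball) (fun p hp => mem_iUnion.2 ⟨⟨p, hp⟩, mem_ball_self (hr _)⟩)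
  refine ⟨w, hw, fun q hq z z' hz hz' => ?_⟩
  obtain ⟨p, hp⟩ := h3 q hq
  have kz : z ∈ ball p.1 (r p) := hp (by rwa [mem_ball, dist_eq_norm])
  have kz' : z' ∈ ball p.1 (r p) := hp (by rwa [mem_ball, dist_eq_norm])
  have kq : q ∈ ball p.1 (r p) := hp (mem_ball_self hw)
  refine ⟨(h1 p z z' kz kz').1, (h1 p z' z kz' kz).1, ?_⟩
  have e1 := (h1 p z z' kz kz').2
  have e2 := h2 p q kq
  have e3 : (Ψ z - Ψ z') - fderiv ℝ Ψ q (z - z') =
      ((Ψ z - Ψ z') - fderiv ℝ Ψ p.1 (z - z')) + (fderiv ℝ Ψ p.1 - fderiv ℝ Ψ q) (z - z') := by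
    rw [sub_apply]
    abel
  rw [e3]
  have e4 := (fderiv ℝ Ψ p.1 - fderiv ℝ Ψ q).le_opNorm (z - z')
  have e5 := mul_le_mul_of_nonneg_right e2 (norm_nonneg (z - z'))
  calc _ ≤ _ + _ := norm_add_le _ _
    _ ≤ κ / 2 * ‖z - z'‖ + κ / 2 * ‖z - z'‖ := add_le_add e1 (e4.trans e5)
    _ = κ * ‖z - z'‖ := by ring

theorem s_COMP : S_COMP := by
  intro E F G _ _ _ _ _ _ _ _ _ K W a L Ψ hK hW hΨ haW haL δ' hδ'
  -- the image of `K`
  obtain ⟨L', hL'⟩ : ∃ L' : ℝ, L' = |L| := ⟨_, rfl⟩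
  have hL'0 : 0 ≤ L' := by rw [hL']; exact abs_nonneg _
  have haL' : ∀ x ∈ K, ∀ y ∈ K, ‖a x - a y‖ ≤ L' * ‖x - y‖ := fun x hx y hy =>
    (haL x hx y hy).trans (mul_le_mul_of_nonneg_right (by rw [hL']; exact le_abs_self _)
      (norm_nonneg _))
  have hcont : ContinuousOn a K := by
    have : LipschitzOnWith ⟨L', hL'0⟩ a K := LipschitzOnWith.of_dist_le_mul fun x hx y hy => by
      rw [dist_eq_norm, dist_eq_norm]
      exact haL' x hx y hy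
    exact this.continuousOn
  have hC : IsCompact (a '' K) := hK.image_of_continuousOn hcont
  have hCW : a '' K ⊆ W := by
    rintro _ ⟨x, hx, rfl⟩
    exact haW x hx
  obtain ⟨B, hB⟩ := hC.exists_bound_of_continuousOn
    ((hΨ.continuousOn_fderiv_of_isOpen hW (by simp)).mono hCW)
  obtain ⟨B', hB'⟩ : ∃ B' : ℝ, B' = |B| := ⟨_, rfl⟩
  have hB'0 : 0 ≤ B' := by rw [hB']; exact abs_nonneg _
  have hB'1 : ∀ x ∈ K, ‖fderiv ℝ Ψ (a x)‖ ≤ B' := fun x hx =>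
    (hB _ (mem_image_of_mem a hx)).trans (by rw [hB']; exact le_abs_self _)
  obtain ⟨κ, hκ⟩ : ∃ κ : ℝ, κ = δ' / (4 * (L' + 1)) := ⟨_, rfl⟩
  have hκpos : 0 < κ := by rw [hκ]; positivity
  have hκL : κ * (2 * L' + 1) ≤ δ' / 2 := by
    have h1 : κ * (2 * (L' + 1)) = δ' / 2 := by
      rw [hκ]
      field_simp
      ring
    have h2 : κ * (2 * L' + 1) ≤ κ * (2 * (L' + 1)) :=
      mul_le_mul_of_nonneg_left (by linarith) hκpos.le
    linarith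
  obtain ⟨w, hw, hus⟩ := unif_strict hC hW hCW hΨ hκpos
  obtain ⟨w', hw'⟩ : ∃ w' : ℝ, w' = w / (4 * (L' + 1)) := ⟨_, rfl⟩
  have hw'pos : 0 < w' := by rw [hw']; positivity
  have hw'L : L' * w' ≤ w / 4 := by
    have h1 : (L' + 1) * w' = w / 4 := by
      rw [hw']
      field_simp
    nlinarith
  obtain ⟨δ, hδ⟩ : ∃ δ : ℝ, δ = min (min 1 (w / 4))
    (min (δ' / (2 * (B' + 1))) (min (δ' / (B' + κ)) (δ' * w' / (2 * (B' + κ))))) := ⟨_, rfl⟩
  have hδpos : 0 < δ := by rw [hδ]; positivity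
  have hδ1 : δ ≤ 1 := by rw [hδ]; exact (min_le_left _ _).trans (min_le_left _ _)
  have hδ2 : δ ≤ w / 4 := by rw [hδ]; exact (min_le_left _ _).trans (min_le_right _ _)
  have hδ3 : B' * δ ≤ δ' / 2 := by
    have h1 : δ ≤ δ' / (2 * (B' + 1)) := by
      rw [hδ]; exact (min_le_right _ _).trans (min_le_left _ _)
    rw [le_div_iff₀ (by positivity)] at h1
    nlinarith
  have hδ4 : (B' + κ) * δ ≤ δ' := by
    have h1 : δ ≤ δ' / (B' + κ) := by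
      rw [hδ]; exact (min_le_right _ _).trans ((min_le_right _ _).trans (min_le_left _ _))
    rw [le_div_iff₀ (by positivity)] at h1
    linarith
  have hδ5 : 2 * ((B' + κ) * δ) ≤ δ' * w' := by
    have h1 : δ ≤ δ' * w' / (2 * (B' + κ)) := by
      rw [hδ]; exact (min_le_right _ _).trans ((min_le_right _ _).trans (min_le_right _ _))
    rw [le_div_iff₀ (by positivity)] at h1
    linarith
  refine ⟨δ, hδpos, fun a' ha' => ?_⟩
  have hd : ∀ x ∈ K, ‖a' x - a x‖ ≤ δ := ha'.1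
  have hd2 : ∀ x ∈ K, ∀ y ∈ K, ‖(a' x - a x) - (a' y - a y)‖ ≤ δ * ‖x - y‖ := ha'.2
  have hw4 : w / 4 < w := by linarith
  have hsup : ∀ x ∈ K, a' x ∈ W ∧ ‖Ψ (a' x) - Ψ (a x)‖ ≤ (B' + κ) * δ := by
    intro x hx
    have h1 := hus (a x) (mem_image_of_mem a hx) (a' x) (a x)
      ((hd x hx).trans_lt (hδ2.trans_lt hw4)) (by rw [sub_self, norm_zero]; exact hw)
    refine ⟨h1.1, ?_⟩
    have h2 := (fderiv ℝ Ψ (a x)).le_opNorm (a' x - a x)
    have h3 : Ψ (a' x) - Ψ (a x) = (Ψ (a' x) - Ψ (a x) - fderiv ℝ Ψ (a x) (a' x - a x)) +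
        fderiv ℝ Ψ (a x) (a' x - a x) := by abel
    have h4 : ‖Ψ (a' x) - Ψ (a x)‖ ≤ ‖Ψ (a' x) - Ψ (a x) - fderiv ℝ Ψ (a x) (a' x - a x)‖ +
        ‖fderiv ℝ Ψ (a x) (a' x - a x)‖ := by
      conv_lhs => rw [h3]
      exact norm_add_le _ _
    have h5 : ‖fderiv ℝ Ψ (a x)‖ * ‖a' x - a x‖ ≤ B' * δ :=
      mul_le_mul (hB'1 x hx) (hd x hx) (norm_nonneg _) hB'0
    have h6 : κ * ‖a' x - a x‖ ≤ κ * δ := mul_le_mul_of_nonneg_left (hd x hx) hκpos.le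
    linarith [h1.2.2]
  refine ⟨fun x hx => (hsup x hx).1, fun x hx => (hsup x hx).2.trans hδ4, fun x hx y hy => ?_⟩
  show ‖(Ψ (a' x) - Ψ (a x)) - (Ψ (a' y) - Ψ (a y))‖ ≤ δ' * ‖x - y‖
  rcases lt_or_ge ‖x - y‖ w' with hlt | hge
  · -- near pairs
    have n1 : ‖a x - a y‖ ≤ w / 4 := (haL' x hx y hy).trans
      ((mul_le_mul_of_nonneg_left hlt.le hL'0).trans hw'L)
    have n2 : ‖a y - a x‖ < w := by rw [norm_sub_rev]; linarith
    have n3 : ‖a' y - a x‖ < w := by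
      have e : a' y - a x = (a' y - a y) - (a x - a y) := by abel
      rw [e]
      have := norm_sub_le (a' y - a y) (a x - a y)
      have := hd y hy
      linarith
    have n4 : ‖a' x - a x‖ < w := (hd x hx).trans_lt (hδ2.trans_lt hw4)
    have m1 := (hus (a x) (mem_image_of_mem a hx) (a' x) (a' y) n4 n3).2.2
    have m2 := (hus (a x) (mem_image_of_mem a hx) (a x) (a y)
      (by rw [sub_self, norm_zero]; exact hw) n2).2.2
    have l1 : ‖a' x - a' y‖ ≤ (L' + δ) * ‖x - y‖ := by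
      have e : a' x - a' y = (a x - a y) + ((a' x - a x) - (a' y - a y)) := by abel
      rw [e]
      have e1 := norm_add_le (a x - a y) ((a' x - a x) - (a' y - a y))
      have e2 := haL' x hx y hy
      have e3 := hd2 x hx y hy
      linarith
    have l2 := haL' x hx y hy
    have e : (Ψ (a' x) - Ψ (a x)) - (Ψ (a' y) - Ψ (a y)) =
        (Ψ (a' x) - Ψ (a' y) - fderiv ℝ Ψ (a x) (a' x - a' y)) -
        (Ψ (a x) - Ψ (a y) - fderiv ℝ Ψ (a x) (a x - a y)) +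
        fderiv ℝ Ψ (a x) ((a' x - a x) - (a' y - a y)) := by
      have e0 : (a' x - a x) - (a' y - a y) = (a' x - a' y) - (a x - a y) := by abel
      rw [e0, map_sub (fderiv ℝ Ψ (a x)) (a' x - a' y) (a x - a y)]
      abel
    rw [e]
    have f1 := (fderiv ℝ Ψ (a x)).le_opNorm ((a' x - a x) - (a' y - a y))
    have f2 : ‖fderiv ℝ Ψ (a x)‖ * ‖(a' x - a x) - (a' y - a y)‖ ≤ B' * (δ * ‖x - y‖) :=
      mul_le_mul (hB'1 x hx) (hd2 x hx y hy) (norm_nonneg _) hB'0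
    have f3 : κ * ‖a' x - a' y‖ ≤ κ * ((L' + δ) * ‖x - y‖) := mul_le_mul_of_nonneg_left l1 hκpos.le
    have f4 : κ * ‖a x - a y‖ ≤ κ * (L' * ‖x - y‖) := mul_le_mul_of_nonneg_left l2 hκpos.le
    have f5 : κ * ((L' + δ) * ‖x - y‖) + κ * (L' * ‖x - y‖) ≤ δ' / 2 * ‖x - y‖ := by
      have : κ * ((L' + δ) * ‖x - y‖) + κ * (L' * ‖x - y‖) = (κ * (2 * L' + δ)) * ‖x - y‖ := by
        ring
      rw [this]
      refine mul_le_mul_of_nonneg_right (le_trans ?_ hκL) (norm_nonneg _)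
      exact mul_le_mul_of_nonneg_left (by linarith) hκpos.le
    have f6 : B' * (δ * ‖x - y‖) ≤ δ' / 2 * ‖x - y‖ := by
      rw [← mul_assoc]
      exact mul_le_mul_of_nonneg_right hδ3 (norm_nonneg _)
    calc _ ≤ ‖(Ψ (a' x) - Ψ (a' y) - fderiv ℝ Ψ (a x) (a' x - a' y)) -
          (Ψ (a x) - Ψ (a y) - fderiv ℝ Ψ (a x) (a x - a y))‖ +
          ‖fderiv ℝ Ψ (a x) ((a' x - a x) - (a' y - a y))‖ := norm_add_le _ _
      _ ≤ (‖Ψ (a' x) - Ψ (a' y) - fderiv ℝ Ψ (a x) (a' x - a' y)‖ +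
          ‖Ψ (a x) - Ψ (a y) - fderiv ℝ Ψ (a x) (a x - a y)‖) +
          ‖fderiv ℝ Ψ (a x) ((a' x - a x) - (a' y - a y))‖ := by
            gcongr
            exact norm_sub_le _ _
      _ ≤ δ' * ‖x - y‖ := by linarith
  · -- far pairs
    have s1 := (hsup x hx).2
    have s2 := (hsup y hy).2
    have s3 := norm_sub_le (Ψ (a' x) - Ψ (a x)) (Ψ (a' y) - Ψ (a y))
    have s4 : δ' * w' ≤ δ' * ‖x - y‖ := mul_le_mul_of_nonneg_left hge hδ'.le
    linarith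

end Pool.Agent.L7h69.PI
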