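import Pool.Agent.L7h69.PI.Nu
import Pool.Agent.L7h34.AA.Low

/-!
# Project PI: stable local surjectivity of immersions `K → K` (`S_SURJ`)
-/

set_option autoImplicit false

open Set Filter Topology Metric
open scoped ContDiff NNReal

namespace Pool.Agent.L7h69.PI

open Pool.Agent.L7h32.AA Pool.Agent.L7h32.PI

variable {E : Type} [NormedAddCommGroup E] [NormedSpace ℝ E] [FiniteDimensional ℝ E]
  {K U : Set E} {N : E → E}

/-- a linear map `A` with kernel the range of `P`, and range in the kernel of `Q` -/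
theorem exA (P Q : E →L[ℝ] E) (hP : ∀ v, P (P v) = P v)
    (h : Module.finrank ℝ (LinearMap.range P.toLinearMap) =
      Module.finrank ℝ (LinearMap.range Q.toLinearMap)) :
    ∃ A : E →L[ℝ] E, (∀ v, Q (A v) = 0) ∧ (∀ v, A v = 0 → v = P v) ∧ ∀ v, A (P v) = 0 := by
  have e1 := P.toLinearMap.finrank_range_add_finrank_ker
  have e2 := Q.toLinearMap.finrank_range_add_finrank_ker
  have e3 : Module.finrank ℝ (LinearMap.ker P.toLinearMap) =
      Module.finrank ℝ (LinearMap.ker Q.toLinearMap) := by omega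
  let A0 := LinearEquiv.ofFinrankEq _ _ e3
  let R : E →ₗ[ℝ] LinearMap.ker P.toLinearMap :=
    LinearMap.codRestrict _ (LinearMap.id - P.toLinearMap) (fun v => by
      rw [LinearMap.mem_ker]
      simp [hP])
  let A : E →ₗ[ℝ] E := (LinearMap.ker Q.toLinearMap).subtype ∘ₗ A0.toLinearMap ∘ₗ R
  refine ⟨LinearMap.toContinuousLinearMap A, fun v => ?_, fun v hv => ?_, fun v => ?_⟩
  · exact LinearMap.mem_ker.1 (A0 (R v)).2
  · have h1 : ((A0 (R v) : LinearMap.ker Q.toLinearMap) : E) = 0 := hv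
    have h2 : A0 (R v) = 0 := Subtype.ext h1
    have h3 : R v = 0 := A0.map_eq_zero_iff.1 h2
    have h4 : ((R v : LinearMap.ker P.toLinearMap) : E) = 0 := by rw [h3]; rfl
    have h5 : v - P v = 0 := h4
    exact sub_eq_zero.1 h5
  · have h3 : R (P v) = 0 := Subtype.ext (show P v - P (P v) = 0 by rw [hP, sub_self])
    show ((A0 (R (P v)) : LinearMap.ker Q.toLinearMap) : E) = 0
    rw [h3, map_zero]
    rfl

theorem s_SURJ_of_RK (hRK : S_RK) : S_SURJ := by
  intro E _ _ _ K U N g hR hK hg hgK x hx hloc ρ hρ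
  have hU := hR.opn.mem_nhds (hR.sub hx)
  have hgx : g x ∈ K := hgK hx
  have hNx : N x = x := hR.fix x hx
  obtain ⟨P, hPdef⟩ : ∃ P, P = fderiv ℝ N x := ⟨_, rfl⟩
  obtain ⟨Q, hQdef⟩ : ∃ Q, Q = fderiv ℝ N (g x) := ⟨_, rfl⟩
  have hP : ∀ v, P (P v) = P v := fun v => by rw [hPdef]; exact idem hR hx v
  obtain ⟨A, hA1, hA2, hA3⟩ := exA P Q hP (by
    rw [hPdef, hQdef]
    exact hRK E K U N hR hK x hx (g x) hgx)
  -- the derivative of `g ∘ N`
  obtain ⟨g', hg'⟩ : ∃ g' : E → E, g' = fun z => g (N z) := ⟨_, rfl⟩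
  have hg's : ContDiffAt ℝ ∞ g' x := by rw [hg']; exact hg.contDiffAt hU
  obtain ⟨B, hB⟩ : ∃ B, B = fderiv ℝ g' x := ⟨_, rfl⟩
  have hBs : HasStrictFDerivAt g' B x := by rw [hB]; exact hg's.hasStrictFDerivAt (by simp)
  have hPs : HasStrictFDerivAt N P x := by rw [hPdef]; exact strictN hR hx
  have hQB : ∀ v, Q (B v) = B v := by
    have h1 : HasFDerivAt N Q (g' x) := by
      rw [hQdef, hg']
      show HasFDerivAt N (fderiv ℝ N (g x)) (g (N x))
      rw [hNx]
      exact (strictN hR hgx).hasFDerivAt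
    have h2 := h1.comp x hBs.hasFDerivAt
    have h3 : (N ∘ g') =ᶠ[𝓝 x] g' := by
      filter_upwards [hU] with z hz
      show N (g' z) = g' z
      rw [hg']
      exact hR.fix _ (hgK (hR.maps z hz))
    have h4 := (hBs.hasFDerivAt.congr_of_eventuallyEq h3).unique h2
    intro v
    exact (congrArg (fun L : E →L[ℝ] E => L v) h4).symm
  obtain ⟨D, hD⟩ : ∃ D : E →L[ℝ] E, D = B + A := ⟨_, rfl⟩
  have hDinj : Function.Injective D := by
    rw [injective_iff_map_eq_zero]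
    intro v hv
    have h1 : B v + A v = 0 := by rw [hD] at hv; exact hv
    have h2 : B v = 0 := by
      have := congrArg Q h1
      rw [map_add, hQB, hA1, add_zero, map_zero] at this
      exact this
    have h3 : A v = 0 := by rwa [h2, zero_add] at h1
    have h4 : v = P v := hA2 v h3
    refine Pool.Agent.L7h34.AA.psi_inj (f := g) hR hg hx hloc (v := v) ?_
    have h5 : HasFDerivAt (Pool.Agent.L7h34.AA.Psi N g)
        (B.prod (ContinuousLinearMap.id ℝ E - P)) x := by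
      have := hBs.hasFDerivAt.prodMk ((hasFDerivAt_id x).sub hPs.hasFDerivAt)
      rw [hg'] at this
      exact this
    rw [h5.fderiv]
    show (B v, v - P v) = 0
    rw [h2, ← h4, sub_self]
    rfl
  let D' : E ≃L[ℝ] E := (LinearEquiv.ofInjectiveEndo D.toLinearMap hDinj).toContinuousLinearEquiv
  have hD' : ∀ v, D (D'.symm v) = v := fun v => D'.apply_symm_apply v
  obtain ⟨M, hM⟩ : ∃ M : ℝ≥0, M = ‖(D'.symm : E →L[ℝ] E)‖₊ + 1 := ⟨_, rfl⟩
  have hMpos : 0 < M := by rw [hM]; positivity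
  let I : D.NonlinearRightInverse :=
    { toFun := D'.symm
      nnnorm := M
      bound' := fun y => by
        have h1 := (D'.symm : E →L[ℝ] E).le_opNorm y
        refine h1.trans (mul_le_mul_of_nonneg_right ?_ (norm_nonneg _))
        rw [hM]
        push_cast
        linarith
      right_inv' := hD' }
  -- the map for `g`
  obtain ⟨G, hG⟩ : ∃ G : (E → E) → E → E, G = fun h z => h (N z) + A (z - N z) := ⟨_, rfl⟩
  have hGs : HasStrictFDerivAt (G g) D x := by
    have h1 := hBs.add (A.hasStrictFDerivAt.comp x ((hasStrictFDerivAt_id x).sub hPs))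
    have h2 : B + A.comp (ContinuousLinearMap.id ℝ E - P) = D := by
      ext v
      show B v + A (v - P v) = D v
      rw [hD, map_sub, hA3, sub_zero]
      rfl
    rw [h2] at h1
    rw [hG]
    rw [hg'] at h1
    exact h1
  obtain ⟨c, hc⟩ : ∃ c : ℝ≥0, c = M⁻¹ / 4 := ⟨_, rfl⟩
  have hcpos : 0 < c := by rw [hc]; positivity
  obtain ⟨L, hL⟩ : ∃ L : ℝ, L = ‖P‖ + 1 := ⟨_, rfl⟩
  have hLpos : 0 < L := by rw [hL]; positivity
  -- smallness conditions
  have hnu := (s_NU E K U N hR).1 (1 / 2) (by norm_num)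
  obtain ⟨w, hw, hnu⟩ := hnu
  have k1 : ∀ᶠ q in 𝓝 (x, x), ‖G g q.1 - G g q.2 - D (q.1 - q.2)‖ ≤ c * ‖q.1 - q.2‖ :=
    hGs.isLittleO.def (by exact_mod_cast hcpos)
  have k2 : ∀ᶠ q in 𝓝 (x, x), ‖N q.1 - N q.2 - P (q.1 - q.2)‖ ≤ 1 * ‖q.1 - q.2‖ :=
    hPs.isLittleO.def one_pos
  have k3 : ∀ᶠ z in 𝓝 x, z ∈ U := hU
  have k4 : ∀ᶠ z in 𝓝 x, dist (N z) x < w := by
    have h1 := hPs.hasFDerivAt.continuousAt.eventually (Metric.ball_mem_nhds _ hw)
    filter_upwards [h1] with z hz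
    rwa [hNx] at hz
  have k5 : ∀ᶠ z in 𝓝 x, dist (g (N z)) (g x) < w / 2 := by
    have h1 := hBs.hasFDerivAt.continuousAt.eventually (Metric.ball_mem_nhds _ (half_pos hw))
    filter_upwards [h1] with z hz
    have hz' : dist (g' z) (g' x) < w / 2 := hz
    rw [hg'] at hz'
    have hz'' : dist (g (N z)) (g (N x)) < w / 2 := hz'
    rwa [hNx] at hz''
  obtain ⟨r1, hr1, hb1⟩ := Metric.eventually_nhds_iff_ball.1 (k1.and k2)
  obtain ⟨r2, hr2, hb2⟩ := Metric.eventually_nhds_iff_ball.1 (k3.and (k4.and k5))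
  obtain ⟨ε, hε⟩ : ∃ ε : ℝ, ε = min (min r1 r2) (min ρ w) / 2 := ⟨_, rfl⟩
  have hεpos : 0 < ε := by rw [hε]; positivity
  have hε1 : ε < r1 := by
    have h1 : min (min r1 r2) (min ρ w) ≤ r1 := (min_le_left _ _).trans (min_le_left _ _)
    have h2 : 0 < min (min r1 r2) (min ρ w) := by positivity
    rw [hε]; linarith
  have hε2 : ε < r2 := by
    have h1 : min (min r1 r2) (min ρ w) ≤ r2 := (min_le_left _ _).trans (min_le_right _ _)
    have h2 : 0 < min (min r1 r2) (min ρ w) := by positivity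
    rw [hε]; linarith
  have hε3 : ε < ρ := by
    have h1 : min (min r1 r2) (min ρ w) ≤ ρ := (min_le_right _ _).trans (min_le_left _ _)
    have h2 : 0 < min (min r1 r2) (min ρ w) := by positivity
    rw [hε]; linarith
  have hε4 : ε < w := by
    have h1 : min (min r1 r2) (min ρ w) ≤ w := (min_le_right _ _).trans (min_le_right _ _)
    have h2 : 0 < min (min r1 r2) (min ρ w) := by positivity
    rw [hε]; linarith
  have hMi : (0 : ℝ) < (M : ℝ)⁻¹ := by positivity
  obtain ⟨ρ', hρ'⟩ : ∃ ρ' : ℝ, ρ' = min ((M : ℝ)⁻¹ * ε / 4) w := ⟨_, rfl⟩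
  have hρ'pos : 0 < ρ' := by rw [hρ']; positivity
  obtain ⟨δ, hδ⟩ : ∃ δ : ℝ, δ = min (c / L) (min ((M : ℝ)⁻¹ * ε / 4) (w / 2)) := ⟨_, rfl⟩
  have hδpos : 0 < δ := by
    rw [hδ]
    have : (0 : ℝ) < c := by exact_mod_cast hcpos
    positivity
  refine ⟨ρ', hρ'pos, δ, hδpos, fun h hh hhK hsm y hy hyρ => ?_⟩
  have hδc : δ * L ≤ c := by
    have h1 : δ ≤ c / L := by rw [hδ]; exact min_le_left _ _
    rwa [le_div_iff₀ hLpos] at h1
  have hδ1 : δ ≤ (M : ℝ)⁻¹ * ε / 4 := by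
    rw [hδ]; exact (min_le_right _ _).trans (min_le_left _ _)
  have hδ2 : δ ≤ w / 2 := by
    rw [hδ]; exact (min_le_right _ _).trans (min_le_right _ _)
  -- intersect the balls, so that `N` maps into `K`
  have happ : ApproximatesLinearOn (G h) D (ball x r1 ∩ ball x r2) (2 * c) := by
    rintro z ⟨hz1, hz2⟩ z' ⟨hz1', hz2'⟩
    have m : (z, z') ∈ ball (x, x) r1 := by
      rw [← ball_prod_same]
      exact ⟨hz1, hz1'⟩
    obtain ⟨m1, m2⟩ := hb1 _ m
    have n1 := hR.maps z (hb2 z hz2).1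
    have n2 := hR.maps z' (hb2 z' hz2').1
    have m3 := hsm.2 _ n1 _ n2
    have m4 : ‖N z - N z'‖ ≤ L * ‖z - z'‖ := by
      have e1 : N z - N z' = (N z - N z' - P (z - z')) + P (z - z') := by abel
      have e2 : ‖N z - N z'‖ ≤ ‖N z - N z' - P (z - z')‖ + ‖P (z - z')‖ := by
        conv_lhs => rw [e1]
        exact norm_add_le _ _
      have e3 := P.le_opNorm (z - z')
      have e4 : ‖N z - N z' - P (z - z')‖ ≤ 1 * ‖z - z'‖ := m2
      rw [hL]
      linarith
    have e5 : G h z - G h z' - D (z - z') =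
        (G g z - G g z' - D (z - z')) + ((h (N z) - g (N z)) - (h (N z') - g (N z'))) := by
      rw [hG]
      show (h (N z) + A (z - N z)) - (h (N z') + A (z' - N z')) - D (z - z') =
        ((g (N z) + A (z - N z)) - (g (N z') + A (z' - N z')) - D (z - z')) +
          ((h (N z) - g (N z)) - (h (N z') - g (N z')))
      abel
    rw [e5]
    have e6 : ‖(h (N z) - g (N z)) - (h (N z') - g (N z'))‖ ≤ c * ‖z - z'‖ := by
      calc _ ≤ δ * ‖N z - N z'‖ := m3
        _ ≤ δ * (L * ‖z - z'‖) := mul_le_mul_of_nonneg_left m4 hδpos.le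
        _ = (δ * L) * ‖z - z'‖ := by ring
        _ ≤ c * ‖z - z'‖ := mul_le_mul_of_nonneg_right hδc (norm_nonneg _)
    calc _ ≤ _ + _ := norm_add_le _ _
      _ ≤ c * ‖z - z'‖ + c * ‖z - z'‖ := add_le_add m1 e6
      _ = ((2 * c : ℝ≥0) : ℝ) * ‖z - z'‖ := by push_cast; ring
  have hsub : closedBall x ε ⊆ ball x r1 ∩ ball x r2 := fun z hz =>
    ⟨closedBall_subset_ball hε1 hz, closedBall_subset_ball hε2 hz⟩
  have hsurj := happ.surjOn_closedBall_of_nonlinearRightInverse I hεpos.le hsub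
  have hGx : G h x = h x := by
    rw [hG]
    show h (N x) + A (x - N x) = h x
    rw [hNx, sub_self, map_zero, add_zero]
  have hyball : y ∈ closedBall (G h x) (((I.nnnorm : ℝ)⁻¹ - (2 * c : ℝ≥0)) * ε) := by
    rw [mem_closedBall, hGx, dist_eq_norm]
    have e1 : ‖y - h x‖ ≤ ‖y - g x‖ + ‖h x - g x‖ := by
      have : y - h x = (y - g x) - (h x - g x) := by abel
      rw [this]
      exact norm_sub_le _ _
    have e2 := hsm.1 x hx
    have e3 : ρ' ≤ (M : ℝ)⁻¹ * ε / 4 := by rw [hρ']; exact min_le_left _ _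
    have e4 : ((I.nnnorm : ℝ)⁻¹ - (2 * c : ℝ≥0)) * ε = (M : ℝ)⁻¹ * ε / 2 := by
      show (((M : ℝ≥0) : ℝ)⁻¹ - (2 * c : ℝ≥0)) * ε = (M : ℝ)⁻¹ * ε / 2
      rw [hc]
      push_cast
      ring
    rw [e4]
    have e2' : ‖h x - g x‖ ≤ δ := e2
    linarith
  obtain ⟨z, hz, hzy⟩ := hsurj hyball
  have hzε : ‖z - x‖ ≤ ε := by rwa [mem_closedBall, dist_eq_norm] at hz
  have hz2 : z ∈ ball x r2 := (hsub hz).2
  obtain ⟨q1, q2, q3⟩ := hb2 z hz2
  have hNz : N z ∈ K := hR.maps z q1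
  have hhN : h (N z) ∈ K := hhK hNz
  have hzy' : h (N z) + A (z - N z) = y := by rw [hG] at hzy; exact hzy
  -- `u = 0`
  have hu : A (z - N z) = y - h (N z) := by rw [← hzy']; abel
  have hu0 : A (z - N z) = 0 := by
    have t1 : ‖y - g x‖ < w := hyρ.trans_le (by rw [hρ']; exact min_le_right _ _)
    have t2 : ‖h (N z) - g x‖ < w := by
      have s1 := hsm.1 _ hNz
      have s1' : ‖h (N z) - g (N z)‖ ≤ δ := s1
      rw [dist_eq_norm] at q3
      have s2 : h (N z) - g x = (h (N z) - g (N z)) + (g (N z) - g x) := by abel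
      have s3 := norm_add_le (h (N z) - g (N z)) (g (N z) - g x)
      rw [← s2] at s3
      linarith
    have t3 := (hnu (g x) hgx y (h (N z)) t1 t2).2.2
    rw [hR.fix y hy, hR.fix _ hhN, ← hQdef, ← hu, hA1, sub_zero] at t3
    have t4 : ‖A (z - N z)‖ ≤ 0 := by linarith
    exact norm_le_zero_iff.1 t4
  have hyh : h (N z) = y := by rw [hu0, add_zero] at hzy'; exact hzy'
  have hP' : z - N z = P (z - N z) := hA2 _ hu0
  have hzN : z = N z := by
    have t1 : ‖z - x‖ < w := hzε.trans_lt hε4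
    have t2 : ‖N z - x‖ < w := by rwa [dist_eq_norm] at q2
    have t3 := (hnu x hx z (N z) t1 t2).2.2
    rw [hR.fix _ hNz, sub_self, zero_sub, norm_neg, ← hPdef, ← hP'] at t3
    have t4 : ‖z - N z‖ ≤ 0 := by linarith
    exact sub_eq_zero.1 (norm_le_zero_iff.1 t4)
  refine ⟨z, by rw [hzN]; exact hNz, hzε.trans_lt hε3, ?_⟩
  rw [hzN]
  exact hyh

end Pool.Agent.L7h69.PI
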